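import Mathlib
import Pool.Agent.Y166.CS.Stm

set_option autoImplicit false

open Polynomial

namespace Pool.Agent.Y994.CS

open Pool.Agent.Y166.CS

/-- the multiplicities of `x - c` are divisible by `k` -/
lemma mult {f x y z : ℂ[X]} {k : ℕ} (hk : 1 ≤ k) (hf : Squarefree f)
    (h : f.comp x * z = y ^ k)
    (hyz : ∀ t : ℂ, ¬ (f.eval (x.eval t) = 0 ∧ y.eval t = 0 ∧ z.eval t = 0)) {c : ℂ}
    (hc : f.eval c = 0) (t : ℂ) : k ∣ (x - C c).rootMultiplicity t := by
  by_cases hx : x - C c = 0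
  · rw [hx, rootMultiplicity_zero]
    exact dvd_zero k
  by_cases ht : (x - C c).eval t = 0
  · have hxt : x.eval t = c := by
      rw [eval_sub, eval_C, sub_eq_zero] at ht
      exact ht
    have h1 : (f.comp x).eval t = 0 := by rw [eval_comp, hxt, hc]
    have hy : y.eval t = 0 := by
      have h2 := congrArg (eval t) h
      rw [eval_mul, h1, zero_mul, eval_pow] at h2
      exact (pow_eq_zero_iff (by omega)).1 h2.symm
    have hz : z.eval t ≠ 0 := fun hz => hyz t ⟨by rw [hxt, hc], hy, hz⟩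
    obtain ⟨f1, hf1⟩ := dvd_iff_isRoot.2 (show f.IsRoot c from hc)
    have hf1c : f1.eval c ≠ 0 := by
      intro h0
      obtain ⟨f2, hf2⟩ := dvd_iff_isRoot.2 (show f1.IsRoot c from h0)
      have h3 : (X - C c) * (X - C c) ∣ f := ⟨f2, by rw [hf1, hf2, mul_assoc]⟩
      have h4 := hf _ h3
      exact not_isUnit_X_sub_C c h4
    have hcomp : f.comp x = (x - C c) * f1.comp x := by
      rw [hf1, mul_comp, sub_comp, X_comp, C_comp]
    have hf1t : (f1.comp x).eval t ≠ 0 := by rw [eval_comp, hxt]; exact hf1c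
    have n1 : f1.comp x ≠ 0 := fun h0 => hf1t (by rw [h0, eval_zero])
    have n2 : z ≠ 0 := fun h0 => hz (by rw [h0, eval_zero])
    have n3 : f1.comp x * z ≠ 0 := mul_ne_zero n1 n2
    have n4 : (x - C c) * (f1.comp x * z) ≠ 0 := mul_ne_zero hx n3
    have h5 : (x - C c) * (f1.comp x * z) = y ^ k := by rw [← mul_assoc, ← hcomp, h]
    have h6 := congrArg (rootMultiplicity t) h5
    rw [rootMultiplicity_mul n4, rootMultiplicity_mul n3, rootMultiplicity_eq_zero hf1t,
      rootMultiplicity_eq_zero hz, add_zero, add_zero] at h6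
    rw [h6, ← count_roots, roots_pow, Multiset.count_nsmul]
    exact dvd_mul_right k _
  · rw [rootMultiplicity_eq_zero ht]
    exact dvd_zero k

/-- two different zeros of a squarefree polynomial of degree at least two -/
lemma two_roots {f : ℂ[X]} (hf : Squarefree f) (hd : 2 ≤ f.natDegree) :
    ∃ c c' : ℂ, c ≠ c' ∧ f.eval c = 0 ∧ f.eval c' = 0 := by
  have hf0 : f ≠ 0 := hf.ne_zero
  have hdeg : f.degree ≠ 0 := by
    intro h
    have := natDegree_eq_zero_iff_degree_le_zero.2 h.le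
    omega
  obtain ⟨c, hc⟩ := IsAlgClosed.exists_root f hdeg
  obtain ⟨g, hg⟩ := dvd_iff_isRoot.2 hc
  have hg0 : g ≠ 0 := by
    rintro rfl
    rw [mul_zero] at hg
    exact hf0 hg
  have hgd : g.degree ≠ 0 := by
    intro h
    have h1 := natDegree_eq_zero_iff_degree_le_zero.2 h.le
    have h2 : f.natDegree = 1 + g.natDegree := by
      rw [hg, natDegree_mul (X_sub_C_ne_zero c) hg0, natDegree_X_sub_C]
    omega
  obtain ⟨c', hc'⟩ := IsAlgClosed.exists_root g hgd
  refine ⟨c, c', ?_, hc, ?_⟩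
  · rintro rfl
    obtain ⟨g2, hg2⟩ := dvd_iff_isRoot.2 hc'
    have h3 : (X - C c) * (X - C c) ∣ f := ⟨g2, by rw [hg, hg2, mul_assoc]⟩
    exact not_isUnit_X_sub_C c (hf _ h3)
  · rw [hg, eval_mul, show g.eval c' = 0 from hc', mul_zero]

theorem done (hK : S_KPOW) : S_CURVE := by
  intro f hf hd k hk x y z h hyz
  obtain ⟨c, c', hcc, hc, hc'⟩ := two_roots hf hd
  exact hK k hk x c c' hcc (mult (by omega) hf h hyz hc) (mult (by omega) hf h hyz hc')

end Pool.Agent.Y994.CS
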